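import Pool.Agent.Helper69.MF.StB

set_option autoImplicit false

/-!
# Project MF (MP_9583f0_gt), module G6: regular points move in the surface
-/

namespace Pool.Agent.Helper95.MF

open Set Topology Filter MeasureTheory
open Pool.Agent.Helper31.CY Pool.Agent.Helper69.MF

theorem rot_eq (s : ℝ) (y : E3) : rot s y =
    Real.cos s • pt (y 0) (y 1) 0 + Real.sin s • pt (-(y 1)) (y 0) 0 + pt 0 0 (y 2) := by
  ext i
  fin_cases i <;> simp [rot, pt] <;> ring

theorem rot_deriv (s : ℝ) (y : E3) : HasDerivAt (fun s => rot s y) (Jv (rot s y)) s := by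
  have h1 : HasDerivAt (fun s => Real.cos s • pt (y 0) (y 1) 0 + Real.sin s • pt (-(y 1)) (y 0) 0 +
      pt 0 0 (y 2)) ((-Real.sin s) • pt (y 0) (y 1) 0 + Real.cos s • pt (-(y 1)) (y 0) 0) s :=
    (((Real.hasDerivAt_cos s).smul_const _).add ((Real.hasDerivAt_sin s).smul_const _)).add_const _
  have h2 : (fun s => rot s y) = fun s => Real.cos s • pt (y 0) (y 1) 0 +
      Real.sin s • pt (-(y 1)) (y 0) 0 + pt 0 0 (y 2) := funext fun s => rot_eq s y
  rw [h2]
  convert h1 using 1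
  ext i
  fin_cases i <;> simp [Jv, rot, pt] <;> ring

theorem rot_zero (y : E3) : rot 0 y = y := by
  ext i
  fin_cases i <;> simp [rot, pt]

/-- `Jv` as a continuous linear map -/
theorem Jv_lin : ∃ J : E3 →L[ℝ] E3, ∀ x, J x = Jv x := by
  let J0 : E3 →ₗ[ℝ] E3 :=
    { toFun := Jv
      map_add' := fun x y => by
        ext i
        fin_cases i <;> simp [Jv, pt] <;> ring
      map_smul' := fun c x => by
        ext i
        fin_cases i <;> simp [Jv, pt] }
  exact ⟨LinearMap.toContinuousLinearMap J0, fun x => rfl⟩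

theorem circ_closed (r h : ℝ) : IsClosed (circ r h) := by
  have h0 : Continuous fun x : E3 => x 0 := by fun_prop
  have h1 : Continuous fun x : E3 => x 1 := by fun_prop
  have h2 : Continuous fun x : E3 => x 2 := by fun_prop
  exact (isClosed_eq ((h0.pow 2).add (h1.pow 2)) continuous_const).inter
    (isClosed_eq h2 continuous_const)

/-- zeros of `f` in a fixed direction near `y` -/
theorem zero_near (f : E3 → ℝ) (y : E3) (U : Set E3) (hU : IsOpen U) (hy : y ∈ U)
    (hf : ContDiffOn ℝ 2 f U) (hd : fderiv ℝ f y ≠ 0) (h0 : f y = 0) (V : Set E3) (hV : V ∈ 𝓝 y) :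
    ∃ C : ℝ, 0 ≤ C ∧ ∀ᶠ x in 𝓝 y, ∃ z ∈ V, f z = 0 ∧ ‖x - z‖ ≤ C * |f x| := by
  obtain ⟨w, hw⟩ : ∃ w, fderiv ℝ f y w = 1 := by
    obtain ⟨u, hu⟩ : ∃ u, fderiv ℝ f y u ≠ 0 := by
      by_contra hc
      push Not at hc
      exact hd (ContinuousLinearMap.ext hc)
    exact ⟨(fderiv ℝ f y u)⁻¹ • u, by rw [map_smul, smul_eq_mul, inv_mul_cancel₀ hu]⟩
  have hw0 : 0 < ‖w‖ := by
    rw [norm_pos_iff]
    rintro rfl
    rw [map_zero] at hw
    exact zero_ne_one hw
  have hfa : ContDiffAt ℝ 2 f y := hf.contDiffAt (hU.mem_nhds hy)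
  have hst : HasStrictFDerivAt f (fderiv ℝ f y) y := hfa.hasStrictFDerivAt (by norm_num)
  have hlo := hst.isLittleO
  have hlo2 := hlo.bound (show (0 : ℝ) < 1 / (2 * ‖w‖) by positivity)
  obtain ⟨r, hr, hball⟩ := Metric.eventually_nhds_iff_ball.1 hlo2
  obtain ⟨r', hr', hball'⟩ := Metric.mem_nhds_iff.1 (Filter.inter_mem hV (hU.mem_nhds hy))
  set ρ := min r r' with hρ
  have hρ0 : 0 < ρ := lt_min hr hr'
  refine ⟨2 * ‖w‖, by positivity, ?_⟩
  have hcont : ContinuousAt f y := hfa.continuousAt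
  have hsmall : ∀ᶠ x in 𝓝 y, |f x| < ρ / (4 * ‖w‖) := by
    have h1 : Tendsto (fun x => |f x|) (𝓝 y) (𝓝 |f y|) := hcont.abs
    rw [h0, abs_zero] at h1
    exact h1.eventually (gt_mem_nhds (by positivity))
  filter_upwards [hsmall, Metric.ball_mem_nhds y (half_pos hρ0)] with x hx hxy
  have hseg : ∀ t : ℝ, |t| ≤ 2 * |f x| → x + t • w ∈ Metric.ball y ρ := by
    intro t ht
    rw [Metric.mem_ball, dist_eq_norm]
    have h1 : ‖x + t • w - y‖ ≤ ‖x - y‖ + |t| * ‖w‖ := by
      have h2 : x + t • w - y = (x - y) + t • w := by abel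
      rw [h2]
      refine (norm_add_le _ _).trans ?_
      rw [norm_smul, Real.norm_eq_abs]
    have h2 : ‖x - y‖ < ρ / 2 := by rwa [Metric.mem_ball, dist_eq_norm] at hxy
    have h3 : |t| * ‖w‖ ≤ 2 * |f x| * ‖w‖ := mul_le_mul_of_nonneg_right ht hw0.le
    have h4 : |f x| * ‖w‖ < ρ / 4 := by
      have h5 := mul_lt_mul_of_pos_right hx hw0
      have h6 : ρ / (4 * ‖w‖) * ‖w‖ = ρ / 4 := by field_simp
      rwa [h6] at h5
    linarith
  have hxb : x ∈ Metric.ball y ρ := by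
    have := hseg 0 (by simp)
    simpa using this
  have hest : ∀ t : ℝ, |t| ≤ 2 * |f x| → |f (x + t • w) - f x - t| ≤ |t| / 2 := by
    intro t ht
    have h1 := hball (x + t • w, x) (by
      rw [Metric.mem_ball, Prod.dist_eq]
      exact max_lt (lt_of_lt_of_le (hseg t ht) (min_le_left _ _))
        (lt_of_lt_of_le hxb (min_le_left _ _)))
    simp only [add_sub_cancel_left, map_smul, hw, smul_eq_mul, mul_one, Real.norm_eq_abs,
      norm_smul] at h1
    refine h1.trans (le_of_eq ?_)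
    field_simp
  have hcs : ContinuousOn (fun t : ℝ => f (x + t • w)) (Icc (-(2 * |f x|)) (2 * |f x|)) := by
    intro t ht
    have h1 : x + t • w ∈ U := (hball' (Metric.ball_subset_ball (min_le_right _ _)
      (hseg t (abs_le.2 ht)))).2
    have h2 : ContinuousAt f (x + t • w) := (hf.contDiffAt (hU.mem_nhds h1)).continuousAt
    have h3 : ContinuousAt (fun t : ℝ => x + t • w) t := by fun_prop
    exact (ContinuousAt.comp (f := fun t : ℝ => x + t • w) h2 h3).continuousWithinAt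
  have habs := abs_nonneg (f x)
  have hlow := hest (-(2 * |f x|)) (by rw [abs_neg, abs_of_nonneg (by positivity)])
  have hupp := hest (2 * |f x|) (by rw [abs_of_nonneg (by positivity)])
  rw [abs_neg, abs_of_nonneg (show (0 : ℝ) ≤ 2 * |f x| by positivity)] at hlow
  rw [abs_of_nonneg (show (0 : ℝ) ≤ 2 * |f x| by positivity)] at hupp
  have h5 := abs_le.1 hlow
  have h6 := abs_le.1 hupp
  have h7 := le_abs_self (f x)
  have h8 := neg_abs_le (f x)
  have hivt := intermediate_value_Icc (show -(2 * |f x|) ≤ 2 * |f x| by linarith) hcs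
  obtain ⟨t, ht, htz⟩ := hivt (show (0 : ℝ) ∈ Icc (f (x + (-(2 * |f x|)) • w))
    (f (x + (2 * |f x|) • w)) from ⟨by linarith, by linarith⟩)
  refine ⟨x + t • w, (hball' (Metric.ball_subset_ball (min_le_right _ _)
      (hseg t (abs_le.2 ht)))).1, htz, ?_⟩
  have h9 : x - (x + t • w) = -(t • w) := by abel
  rw [h9, norm_neg, norm_smul, Real.norm_eq_abs]
  have h10 := mul_le_mul_of_nonneg_right (abs_le.2 ht) hw0.le
  linarith

theorem hG6 : StTC2 → StG6 := by
  intro hTC2 r0 r1 h S hTT y hyS hyΓ hrad hreg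
  obtain ⟨f, U, hU, hyU, hf, hd, hS, hm⟩ := hreg
  obtain ⟨J, hJ⟩ := Jv_lin
  have hfy : f y = 0 := (hS y hyU).1 hyS
  -- the derivative in the direction of the rotation field
  have hf1 : ContDiffOn ℝ 1 (fun x => fderiv ℝ f x) U := hf.fderiv_of_isOpen hU (by norm_num)
  have hH : ContDiffAt ℝ 1 (fun x => fderiv ℝ f x (J x)) y :=
    (hf1.contDiffAt (hU.mem_nhds hyU)).clm_apply J.contDiff.contDiffAt
  obtain ⟨K, T, hT, hLip⟩ := hH.exists_lipschitzOnWith
  have hΓo : (circ r0 0 ∪ circ r1 h)ᶜ ∈ 𝓝 y :=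
    ((circ_closed r0 0).union (circ_closed r1 h)).isOpen_compl.mem_nhds hyΓ
  have hradc : Continuous rad := by
    unfold rad
    fun_prop
  have hrado : {x : E3 | 0 < rad x} ∈ 𝓝 y := (isOpen_lt continuous_const hradc).mem_nhds hrad
  have hV : T ∩ (U ∩ ((circ r0 0 ∪ circ r1 h)ᶜ ∩ {x : E3 | 0 < rad x})) ∈ 𝓝 y :=
    Filter.inter_mem hT (Filter.inter_mem (hU.mem_nhds hyU) (Filter.inter_mem hΓo hrado))
  obtain ⟨C, hC, hev⟩ := zero_near f y U hU hyU hf (hd y hyU) hfy _ hV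
  have hzero : ∀ z ∈ T ∩ (U ∩ ((circ r0 0 ∪ circ r1 h)ᶜ ∩ {x : E3 | 0 < rad x})), f z = 0 →
      fderiv ℝ f z (J z) = 0 := by
    rintro z ⟨-, hzU, hzΓ, hzr⟩ hz
    have hzS : z ∈ S := (hS z hzU).2 hz
    have h1 : Tgt S z := hTT z hzS hzΓ ⟨f, U, hU, hzU, hf, hd, hS, hm⟩ hzr
    rw [hJ]
    exact (hTC2 S z f U hU hzU (hf.of_le (by norm_num)) (hd z hzU) hz hS _).1 h1
  have hbd : ∀ᶠ x in 𝓝 y, |fderiv ℝ f x (J x)| ≤ (K * C) * |f x| ∧ x ∈ U := by
    filter_upwards [hev, hT, hU.mem_nhds hyU] with x hx hxT hxU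
    obtain ⟨z, hz, hfz, hxz⟩ := hx
    refine ⟨?_, hxU⟩
    have h1 := hLip.dist_le_mul x hxT z hz.1
    rw [Real.dist_eq, hzero z hz hfz, sub_zero, dist_eq_norm] at h1
    calc |fderiv ℝ f x (J x)| ≤ K * ‖x - z‖ := h1
      _ ≤ K * (C * |f x|) := mul_le_mul_of_nonneg_left hxz K.2
      _ = (K * C) * |f x| := by ring
  have hrc : Tendsto (fun s : ℝ => rot s y) (𝓝 0) (𝓝 y) := by
    have h1 := (rot_deriv 0 y).continuousAt.tendsto
    rwa [rot_zero] at h1
  obtain ⟨ε, hε, hb⟩ := Metric.eventually_nhds_iff_ball.1 (hrc.eventually hbd)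
  have hder : ∀ s : ℝ, |s| < ε → HasDerivAt (fun s => f (rot s y))
      (fderiv ℝ f (rot s y) (J (rot s y))) s := by
    intro s hs
    have h1 := hb s (by rw [Metric.mem_ball, Real.dist_eq, sub_zero]; exact hs)
    have h2 : HasFDerivAt f (fderiv ℝ f (rot s y)) (rot s y) :=
      ((hf.contDiffAt (hU.mem_nhds h1.2)).differentiableAt (by norm_num)).hasFDerivAt
    rw [hJ]
    exact h2.comp_hasDerivAt s (rot_deriv s y)
  have hbound : ∀ s : ℝ, |s| < ε → ‖fderiv ℝ f (rot s y) (J (rot s y))‖ ≤ (K * C) * ‖f (rot s y)‖ := by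
    intro s hs
    exact (hb s (by rw [Metric.mem_ball, Real.dist_eq, sub_zero]; exact hs)).1
  have hpos : ∀ s : ℝ, 0 ≤ s → s < ε → f (rot s y) = 0 := by
    intro s hs0 hs
    refine eq_zero_of_abs_deriv_le_mul_abs_self_of_eq_zero_right (f := fun s => f (rot s y))
      (f' := fun s => fderiv ℝ f (rot s y) (J (rot s y))) (K := K * C) (a := 0) (b := s) ?_ ?_ ?_ ?_
      s ⟨hs0, le_rfl⟩
    · intro x hx
      exact (hder x (by rw [abs_of_nonneg hx.1]; linarith [hx.2])).continuousAt.continuousWithinAt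
    · intro x hx
      exact (hder x (by rw [abs_of_nonneg hx.1]; linarith [hx.2])).hasDerivWithinAt
    · change f (rot 0 y) = 0
      rw [rot_zero, hfy]
    · intro x hx
      exact hbound x (by rw [abs_of_nonneg hx.1]; linarith [hx.2])
  have hneg : ∀ s : ℝ, 0 ≤ s → s < ε → f (rot (-s) y) = 0 := by
    intro s hs0 hs
    refine eq_zero_of_abs_deriv_le_mul_abs_self_of_eq_zero_right (f := fun s => f (rot (-s) y))
      (f' := fun s => -(fderiv ℝ f (rot (-s) y) (J (rot (-s) y)))) (K := K * C) (a := 0) (b := s)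
      ?_ ?_ ?_ ?_ s ⟨hs0, le_rfl⟩
    · intro x hx
      have h1 := hder (-x) (by rw [abs_neg, abs_of_nonneg hx.1]; linarith [hx.2])
      have h2 := h1.scomp x (hasDerivAt_neg x)
      exact h2.continuousAt.continuousWithinAt
    · intro x hx
      have h1 := hder (-x) (by rw [abs_neg, abs_of_nonneg hx.1]; linarith [hx.2])
      have h2 := h1.scomp x (hasDerivAt_neg x)
      simp only [neg_smul, one_smul] at h2
      exact h2.hasDerivWithinAt
    · change f (rot (-0) y) = 0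
      rw [neg_zero, rot_zero, hfy]
    · intro x hx
      rw [norm_neg]
      exact hbound (-x) (by rw [abs_neg, abs_of_nonneg hx.1]; linarith [hx.2])
  refine ⟨ε, hε, fun s hs => ?_⟩
  have h1 := hb s (by rw [Metric.mem_ball, Real.dist_eq, sub_zero]; exact hs)
  refine (hS _ h1.2).2 ?_
  rcases le_total 0 s with h2 | h2
  · exact hpos s h2 (by rwa [abs_of_nonneg h2] at hs)
  · have h3 := hneg (-s) (by linarith) (by rwa [abs_of_nonpos h2] at hs)
    rwa [neg_neg] at h3

end Pool.Agent.Helper95.MF
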